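import Mathlib
import Pool.Agent.H770R2.Kad.HAsm

set_option autoImplicit false

/-!
Bounded, not necessarily unital, homomorphisms of unital C*-algebras into `B(K)` are similar to
*-homomorphisms.
-/

namespace Pool.Agent.H203R3.SP

open scoped InnerProductSpace

/-- bounded homomorphisms, unital or not, are similar to *-homomorphisms -/
theorem similar_of_bounded (A : Type) [CStarAlgebra A] (K : Type) [NormedAddCommGroup K]
    [InnerProductSpace ℂ K] [CompleteSpace K] (π : A →ₗ[ℂ] (K →L[ℂ] K))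
    (hmul : ∀ x y, π (x * y) = π x * π y) (C : ℝ) (hC : ∀ x, ‖π x‖ ≤ C * ‖x‖) :
    ∃ S : (K →L[ℂ] K)ˣ, ∀ x, star ((S : K →L[ℂ] K) * π x * ((S⁻¹ : (K →L[ℂ] K)ˣ) : K →L[ℂ] K)) =
      (S : K →L[ℂ] K) * π (star x) * ((S⁻¹ : (K →L[ℂ] K)ˣ) : K →L[ℂ] K) := by
  -- the unital homomorphism on `A × ℂ`
  let e : K →L[ℂ] K := π 1
  have he1 : ∀ x, e * π x = π x := fun x => by rw [← hmul, one_mul]
  have he2 : ∀ x, π x * e = π x := fun x => by rw [← hmul, mul_one]
  have he : e * e = e := he1 1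
  let u : (A × ℂ) →ₗ[ℂ] (K →L[ℂ] K) :=
    π.comp (LinearMap.fst ℂ A ℂ) + (LinearMap.toSpanSingleton ℂ (K →L[ℂ] K) (1 - e)).comp
      (LinearMap.snd ℂ A ℂ)
  have hu : ∀ p : A × ℂ, u p = π p.1 + p.2 • (1 - e) := fun p => rfl
  have huh : H759R2.Kad.IsHom u := by
    refine ⟨fun p q => ?_, ?_⟩
    · rw [hu, hu, hu]
      show π (p.1 * q.1) + (p.2 * q.2) • (1 - e) = _
      rw [hmul, add_mul, mul_add, mul_add]
      have h1 : π p.1 * (q.2 • (1 - e)) = 0 := by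
        rw [mul_smul_comm, mul_sub, mul_one, he2, sub_self, smul_zero]
      have h2 : p.2 • (1 - e) * π q.1 = 0 := by
        rw [smul_mul_assoc, sub_mul, one_mul, he1, sub_self, smul_zero]
      have h3 : p.2 • (1 - e) * (q.2 • (1 - e)) = (p.2 * q.2) • (1 - e) := by
        rw [smul_mul_assoc, mul_smul_comm, smul_smul]
        congr 1
        rw [sub_mul, mul_sub, mul_sub, he]
        simp
      rw [h1, h2, h3]
      abel
    · rw [hu]
      show π 1 + (1 : ℂ) • (1 - e) = 1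
      rw [one_smul]
      show e + (1 - e) = 1
      abel
  have hb : ∀ p : A × ℂ, ‖u p‖ ≤ (1 + |C| + ‖(1 - e : K →L[ℂ] K)‖) * ‖p‖ := by
    intro p
    rw [hu]
    have h1 : ‖π p.1‖ ≤ |C| * ‖p‖ := (hC p.1).trans
      (mul_le_mul (le_abs_self C) (norm_fst_le p) (norm_nonneg _) (abs_nonneg C))
    have h2 : ‖p.2 • (1 - e : K →L[ℂ] K)‖ ≤ ‖p‖ * ‖(1 - e : K →L[ℂ] K)‖ := by
      rw [norm_smul]
      exact mul_le_mul_of_nonneg_right (norm_snd_le p) (norm_nonneg _)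
    have h3 := norm_nonneg p
    calc ‖π p.1 + p.2 • (1 - e : K →L[ℂ] K)‖ ≤ ‖π p.1‖ + ‖p.2 • (1 - e : K →L[ℂ] K)‖ :=
          norm_add_le _ _
      _ ≤ _ := by nlinarith
  obtain ⟨S, S', h1, h2, -, -, h3⟩ := H770R2.Kad.fin_similar (A × ℂ) K u huh
    (1 + |C| + ‖(1 - e : K →L[ℂ] K)‖) (by
      have := abs_nonneg C
      have := norm_nonneg (1 - e : K →L[ℂ] K)
      linarith) hb
  refine ⟨⟨S, S', h1, h2⟩, fun x => ?_⟩
  have h4 := h3 (x, 0)
  rw [hu] at h4
  have h5 : u (star (x, (0 : ℂ))) = π (star x) := by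
    rw [hu]
    show π (star x) + (star (0 : ℂ)) • (1 - e) = _
    rw [star_zero, zero_smul, add_zero]
  rw [h5] at h4
  simp only [zero_smul, add_zero] at h4
  exact h4

end Pool.Agent.H203R3.SP
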